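import Pool.Agent.Helper67.NX.Conv

/-!
# Project NX: cubes of the terms of the dual function at the last position
-/

set_option autoImplicit false

open Finset
open scoped BigOperators ComplexConjugate

namespace Pool.Agent.Helper57.NX

noncomputable section

theorem cjj_mul67 {k : ℕ} (ω : Fin k → Bool) (z w : ℂ) : cjj ω (z * w) = cjj ω z * cjj ω w := by
  unfold cjj
  split_ifs
  · rfl
  · rw [map_mul]

theorem cjj_prod67 {k : ℕ} {ι : Type} (ω : Fin k → Bool) (s : Finset ι) (z : ι → ℂ) :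
    cjj ω (∏ i ∈ s, z i) = ∏ i ∈ s, cjj ω (z i) := by
  unfold cjj
  split_ifs
  · rfl
  · rw [map_prod]

section FC
variable {m N : ℕ} [NeZero N]

/-- the `k`-th term of the dual function at the last position -/
def Fk67 (S : Sys (m + 1)) (c : Fin (m + 1) → ℝ) (f0 : ZMod N → ℂ) (f : Fin m → ZMod N → ℂ)
    (k : ℕ) (x : ZMod N) : ℂ :=
  f0 (x - (S.a c (Fin.last m) k : ZMod N)) *
    ∏ i : Fin m, f i (x - (S.a c (Fin.last m) k : ZMod N) + (S.a c i.castSucc k : ZMod N))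

omit [NeZero N] in
theorem norm_Fk_le67 (S : Sys (m + 1)) (c : Fin (m + 1) → ℝ) (f0 : ZMod N → ℂ)
    (f : Fin m → ZMod N → ℂ) (h0 : ∀ x, ‖f0 x‖ ≤ 1) (h : ∀ i x, ‖f i x‖ ≤ 1) (k : ℕ)
    (x : ZMod N) : ‖Fk67 S c f0 f k x‖ ≤ 1 := by
  unfold Fk67
  rw [norm_mul, norm_prod]
  exact mul_le_one₀ (h0 _) (prod_nonneg fun _ _ => norm_nonneg _)
    (prod_le_one (fun _ _ => norm_nonneg _) fun i _ => h i _)

omit [NeZero N] in
theorem dual_last67 (S : Sys (m + 1)) (c : Fin (m + 1) → ℝ) (f0 : ZMod N → ℂ)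
    (f : Fin (m + 1) → ZMod N → ℂ) [NeZero N] (x : ZMod N) :
    dual S c 1 f0 f (Fin.last m) x = 𝔼 k ∈ S.I, Fk67 S c f0 (fun i => f i.castSucc) k x := by
  unfold dual Fk67
  refine expect_congr rfl fun k _ => ?_
  rw [Pi.one_apply, one_mul]
  congr 1
  have h1 : (univ.erase (Fin.last m) : Finset (Fin (m + 1))) = univ.map Fin.castSuccEmb := by
    ext i
    simp only [mem_erase, mem_univ, and_true, mem_map, true_and, Fin.coe_castSuccEmb]
    constructor
    · intro h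
      obtain ⟨j, hj⟩ := Fin.exists_castSucc_eq.2 h
      exact ⟨j, hj⟩
    · rintro ⟨j, rfl⟩
      exact (Fin.castSucc_lt_last j).ne
  rw [h1, prod_map]
  rfl

omit [NeZero N] in
theorem update_last67 (f : Fin (m + 1) → ZMod N → ℂ) (G : ZMod N → ℂ) :
    Function.update f (Fin.last m) G =
      Fin.snoc (α := fun _ => ZMod N → ℂ) (fun i : Fin m => f i.castSucc) G := by
  funext i
  refine Fin.lastCases ?_ (fun j => ?_) i
  · rw [Function.update_self, Fin.snoc_last]
  · rw [Function.update_of_ne (Fin.castSucc_lt_last j).ne, Fin.snoc_castSucc]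

/-- the form with a last function `G` -/
theorem form_snoc67 (S : Sys (m + 1)) (c : Fin (m + 1) → ℝ) (f0 : ZMod N → ℂ)
    (f : Fin m → ZMod N → ℂ) (G : ZMod N → ℂ) :
    form S c 1 f0 (Fin.snoc (α := fun _ => ZMod N → ℂ) f G) =
      𝔼 k ∈ S.I, 𝔼 x, Fk67 S c f0 f k x * G x := by
  unfold form
  refine expect_congr rfl fun k _ => ?_
  rw [Pi.one_apply, one_mul]
  rw [← expect_shift (fun x => Fk67 S c f0 f k x * G x) (S.a c (Fin.last m) k : ZMod N)]
  refine expect_congr rfl fun x _ => ?_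
  rw [Fin.prod_univ_castSucc]
  unfold Fk67
  simp only [Fin.snoc_castSucc, Fin.snoc_last, add_sub_cancel_right]
  ring

theorem cube_Fk67 (S : Sys (m + 1)) (c : Fin (m + 1) → ℝ) (f0 : ZMod N → ℂ)
    (f : Fin m → ZMod N → ℂ) (k : ℕ) {l : ℕ} (a b : Fin l → ℕ) (x : ZMod N) :
    cube (Fk67 S c f0 f k) a b x = Fk67 S c (cube f0 a b) (fun i => cube (f i) a b) k x := by
  unfold cube Fk67
  rw [prod_comm, ← prod_mul_distrib]
  refine prod_congr rfl fun ω _ => ?_
  rw [cjj_mul67, cjj_prod67]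
  congr 1
  · congr 2
    ring
  · refine prod_congr rfl fun i _ => ?_
    congr 2
    ring

theorem form_cube67 (S : Sys (m + 1)) (c : Fin (m + 1) → ℝ) (f0 : ZMod N → ℂ)
    (f : Fin m → ZMod N → ℂ) (G : ZMod N → ℂ) {l : ℕ} (a b : Fin l → ℕ) :
    𝔼 k ∈ S.I, 𝔼 x, cube (Fk67 S c f0 f k) a b x * G x =
      form S c 1 (cube f0 a b)
        (Fin.snoc (α := fun _ => ZMod N → ℂ) (fun i => cube (f i) a b) G) := by
  rw [form_snoc67]
  simp_rw [cube_Fk67]

/-- correlations of the dual function are forms -/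
theorem expect_dual67 (S : Sys (m + 1)) (c : Fin (m + 1) → ℝ) (f0 : ZMod N → ℂ)
    (f : Fin m → ZMod N → ℂ) (G : ZMod N → ℂ) :
    𝔼 x, (𝔼 k ∈ S.I, Fk67 S c f0 f k x) * G x =
      form S c 1 f0 (Fin.snoc (α := fun _ => ZMod N → ℂ) f G) := by
  rw [form_snoc67, expect_comm]
  refine expect_congr rfl fun x _ => ?_
  rw [expect_mul]

end FC

end

end Pool.Agent.Helper57.NX
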