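import Pool.Agent.Helper67.NX.TopStepAux
import Pool.Agent.Helper72.NX.DlTotal

/-!
# Project NX: the top step (NX-17)
-/

set_option autoImplicit false

open Finset
open scoped BigOperators ComplexConjugate

namespace Pool.Agent.Helper57.NX

noncomputable section

theorem top_step (m : ℕ) (c : Fin (m + 1) → ℝ) (_hc : StrictMono c) (_hc0 : ∀ i, 0 < c i)
    (s s' ε : ℝ) (hs0 : 0 ≤ s) (hss : s < s') (hs' : s' < c (Fin.last m)) (_hε : 0 < ε)
    (hG : GNCP m c s s') (hL : LPP m c s') (hT : TopP m c s' ε) : TopP m c s ε :=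
  top_step_of67 dl_total m c s s' ε hs0 hss hs' hG hL hT

end

end Pool.Agent.Helper57.NX
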