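import Pool.Agent.Helper57.NX.Defs2
import Pool.Agent.Helper5.NX.Basic

/-!
# Project NX: block phases (variation, conjugation, translation), monotonicity of `Good`
-/

set_option autoImplicit false

open Finset
open scoped BigOperators ComplexConjugate

namespace Pool.Agent.Helper57.NX

noncomputable section

theorem Good.mono67 {m : ℕ} {S : Sys m} {c : Fin m → ℝ} {N : ℕ} {x x' : ℝ}
    (h : Good S c N x) (hD : 1 ≤ S.D) (hx : x ≤ x') : Good S c N x' where
  ρ0 := h.ρ0
  ρ1 := h.ρ1
  Q1 := h.Q1
  Q2 := h.Q2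
  P1 := fun i => le_trans (mul_le_mul_of_nonneg_left
    (Real.rpow_le_rpow_of_exponent_le hD (by linarith)) (Nat.cast_nonneg _)) (h.P1 i)
  P2 := fun i => le_trans (h.P2 i) (mul_le_mul_of_nonneg_left
    (Real.rpow_le_rpow_of_exponent_le hD (by linarith)) (Nat.cast_nonneg _))
  N1 := fun i => le_trans (h.N1 i) (mul_le_mul_of_nonneg_left
    (Real.rpow_le_rpow_of_exponent_le hD (by linarith)) (Nat.cast_nonneg _))
  N2 := h.N2
  u1 := h.u1
  u2 := h.u2
  T1 := le_trans (Real.rpow_le_rpow_of_exponent_le hD (by linarith)) h.T1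

/-! ### counting block boundaries -/

private lemma card_window67 (N X b : ℕ) (hX : 1 ≤ X) (hXN : X ≤ N) :
    #((range X).filter fun i => ((b + i) % N) % X = 0) ≤ 2 := by
  classical
  have hN : 0 < N := by omega
  set w := b % N with hw
  have hwN : w < N := Nat.mod_lt _ hN
  have hmod : ∀ i, (b + i) % N = (w + i) % N := fun i => by rw [hw, Nat.mod_add_mod]
  have hsub : ((range X).filter fun i => ((b + i) % N) % X = 0) ⊆
      ((range X).filter fun i => w + i < N ∧ (w + i) % X = 0) ∪
      ((range X).filter fun i => w + i = N) := by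
    intro i hi
    rw [mem_filter, hmod, mem_range] at hi
    rw [mem_union, mem_filter, mem_filter, mem_range]
    by_cases h : w + i < N
    · left
      refine ⟨hi.1, h, ?_⟩
      rw [Nat.mod_eq_of_lt h] at hi
      exact hi.2
    · right
      have h3 : (w + i) % N = w + i - N := by
        conv_lhs => rw [← Nat.sub_add_cancel (not_lt.1 h)]
        rw [Nat.add_mod_right, Nat.mod_eq_of_lt (by omega)]
      rw [h3, Nat.mod_eq_of_lt (by omega)] at hi
      exact ⟨hi.1, by omega⟩
  have h1 : #((range X).filter fun i => w + i < N ∧ (w + i) % X = 0) ≤ 1 := by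
    rw [card_le_one]
    intro i hi j hj
    rw [mem_filter, mem_range] at hi hj
    have h : (w + i) ≡ (w + j) [MOD X] := by
      unfold Nat.ModEq
      rw [hi.2.2, hj.2.2]
    exact Nat.ModEq.eq_of_lt_of_lt (Nat.ModEq.add_left_cancel' w h) hi.1 hj.1
  have h2 : #((range X).filter fun i => w + i = N) ≤ 1 := by
    rw [card_le_one]
    intro i hi j hj
    rw [mem_filter] at hi hj
    omega
  calc _ ≤ _ := card_le_card hsub
    _ ≤ _ := card_union_le _ _
    _ ≤ 2 := by omega

private lemma card_windows67 (N X : ℕ) (hX : 1 ≤ X) (hXN : X ≤ N) (q : ℕ) : ∀ b : ℕ,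
    #((range (q * X)).filter fun i => ((b + i) % N) % X = 0) ≤ 2 * q := by
  classical
  induction q with
  | zero => intro b; simp
  | succ q ih =>
    intro b
    have hsub : ((range ((q + 1) * X)).filter fun i => ((b + i) % N) % X = 0) ⊆
        ((range (q * X)).filter fun i => ((b + i) % N) % X = 0) ∪
        (((range X).filter fun i => (((b + q * X) + i) % N) % X = 0).image fun i => q * X + i) := by
      intro i hi
      rw [mem_filter, mem_range] at hi
      rw [mem_union, mem_filter, mem_range, mem_image]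
      by_cases h : i < q * X
      · exact Or.inl ⟨h, hi.2⟩
      · right
        have h1 : i < q * X + X := by have := hi.1; linarith [add_one_mul q X]
        refine ⟨i - q * X, ?_, by omega⟩
        rw [mem_filter, mem_range]
        refine ⟨by omega, ?_⟩
        have h2 : b + q * X + (i - q * X) = b + i := by omega
        rw [h2]
        exact hi.2
    calc _ ≤ _ := card_le_card hsub
      _ ≤ _ := card_union_le _ _
      _ ≤ 2 * q + 2 := add_le_add (ih b) (card_image_le.trans (card_window67 N X _ hX hXN))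
      _ = 2 * (q + 1) := by ring

/-- the number of block boundaries in an interval -/
theorem card_boundary67 (N X : ℕ) (hX : 1 ≤ X) (hXN : X ≤ N) (b l : ℕ) :
    (#((range l).filter fun i => ((b + i) % N) % X = 0) : ℝ) ≤ 2 * (l / X + 1) := by
  classical
  have hX0 : (0 : ℝ) < X := by exact_mod_cast hX
  have h1 : l ≤ (l / X + 1) * X := by
    have := Nat.div_add_mod l X
    have h2 := Nat.mod_lt l (show 0 < X by omega)
    nlinarith
  have h2 : #((range l).filter fun i => ((b + i) % N) % X = 0) ≤ 2 * (l / X + 1) :=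
    (card_le_card (filter_subset_filter _ (range_subset_range.2 h1))).trans
      (card_windows67 N X hX hXN _ b)
  have h3 : (#((range l).filter fun i => ((b + i) % N) % X = 0) : ℝ) ≤
      2 * (((l / X : ℕ) : ℝ) + 1) := by exact_mod_cast h2
  have h4 : ((l / X : ℕ) : ℝ) ≤ (l : ℝ) / X := Nat.cast_div_le
  linarith

section BP
variable {N : ℕ} [NeZero N]

theorem norm_bphase_le67 (X : ℕ) (r : ZMod N) (cc : ℕ → ℂ) (φ : ℕ → ℝ)
    (hcc : ∀ j, ‖cc j‖ ≤ 1) (x : ZMod N) : ‖bphase X r cc φ x‖ ≤ 1 := by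
  unfold bphase
  rw [norm_mul, norm_e, mul_one]
  exact hcc _

/-- one step of a block phase -/
theorem bphase_step67 (X : ℕ) (r : ZMod N) (cc : ℕ → ℂ) (φ : ℕ → ℝ) (Φ : ℝ) (hΦ : 0 ≤ Φ)
    (hcc : ∀ j, ‖cc j‖ ≤ 1) (hφ : ∀ j, cc j ≠ 0 → |φ j| ≤ Φ) (y : ZMod N) :
    ‖bphase X r cc φ (y + 1) - bphase X r cc φ y‖ ≤
      2 * Real.pi * Φ + (if ((y + 1 - r).val) % X = 0 then 2 else 0) := by
  have hpi := Real.pi_pos
  split_ifs with h
  · have h1 := norm_bphase_le67 X r cc φ hcc (y + 1)
    have h2 := norm_bphase_le67 X r cc φ hcc y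
    have h3 := norm_sub_le (bphase X r cc φ (y + 1)) (bphase X r cc φ y)
    have h4 : 0 ≤ 2 * Real.pi * Φ := by positivity
    linarith
  · have hval : (y + 1 - r).val = (y - r).val + 1 := by
      have h0 : (y + 1 - r).val ≠ 0 := by
        intro h0
        rw [h0] at h
        simp at h
      have hne : y + 1 - r ≠ 0 := by
        intro h1
        rw [h1] at h0
        simp at h0
      have h5 : y - r = (y + 1 - r) - 1 := by ring
      have h6 := ZMod.val_natCast_of_lt (n := N) (a := (y + 1 - r).val - 1)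
        (by have := ZMod.val_lt (y + 1 - r); omega)
      have h7 : (((y + 1 - r).val - 1 : ℕ) : ZMod N) = y - r := by
        rw [h5, Nat.cast_sub (by omega), ZMod.natCast_zmod_val, Nat.cast_one]
      rw [h7] at h6
      omega
    have hdiv : ((y - r).val + 1) / X = (y - r).val / X := by
      rw [hval] at h
      rw [Nat.succ_div, if_neg (fun hd => h (Nat.mod_eq_zero_of_dvd hd)), add_zero]
    unfold bphase
    rw [hval, hdiv, ← mul_sub, norm_mul]
    by_cases hc : cc ((y - r).val / X) = 0
    · rw [hc, norm_zero, zero_mul]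
      positivity
    · have h8 := norm_e_sub_e_le (φ ((y - r).val / X) * (((y - r).val + 1 : ℕ) : ℝ))
        (φ ((y - r).val / X) * ((y - r).val : ℝ))
      have h9 : φ ((y - r).val / X) * (((y - r).val + 1 : ℕ) : ℝ) -
          φ ((y - r).val / X) * ((y - r).val : ℝ) = φ ((y - r).val / X) := by
        push_cast; ring
      rw [h9] at h8
      calc _ ≤ 1 * (2 * Real.pi * |φ ((y - r).val / X)|) :=
            mul_le_mul (hcc _) h8 (norm_nonneg _) zero_le_one
        _ ≤ 2 * Real.pi * Φ + 0 := by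
            rw [one_mul, add_zero]
            exact mul_le_mul_of_nonneg_left (hφ _ hc) (by positivity)

/-- block phases with bounded frequencies have bounded variation -/
theorem bphase_tv67 (X : ℕ) (hX : 1 ≤ X) (hXN : X ≤ N) (r : ZMod N) (cc : ℕ → ℂ) (φ : ℕ → ℝ)
    (Φ : ℝ) (hΦ : 0 ≤ Φ) (hcc : ∀ j, ‖cc j‖ ≤ 1) (hφ : ∀ j, cc j ≠ 0 → |φ j| ≤ Φ) :
    TV (2 * Real.pi * Φ * X + 4) X (bphase X r cc φ) := by
  classical
  intro x l
  have hpi := Real.pi_pos
  have hX0 : (0 : ℝ) < X := by exact_mod_cast hX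
  have h1 : ∀ j ∈ range l, ‖bphase X r cc φ (x + (j : ZMod N) + 1) -
      bphase X r cc φ (x + (j : ZMod N))‖ ≤ 2 * Real.pi * Φ +
        (if (((x + 1 - r).val + j) % N) % X = 0 then 2 else 0) := by
    intro j _
    have h2 := bphase_step67 X r cc φ Φ hΦ hcc hφ (x + (j : ZMod N))
    have h3 : (x + (j : ZMod N) + 1 - r).val = ((x + 1 - r).val + j) % N := by
      have h4 : x + (j : ZMod N) + 1 - r = (((x + 1 - r).val + j : ℕ) : ZMod N) := by
        rw [Nat.cast_add, ZMod.natCast_zmod_val]
        ring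
      rw [h4, ZMod.val_natCast]
    rwa [h3] at h2
  refine (sum_le_sum h1).trans ?_
  rw [sum_add_distrib, sum_const, card_range, nsmul_eq_mul, ← sum_filter, sum_const,
    nsmul_eq_mul]
  have h5 := card_boundary67 N X hX hXN (x + 1 - r).val l
  have h6 : (l : ℝ) * (2 * Real.pi * Φ) = 2 * Real.pi * Φ * X * (l / X) := by
    field_simp
  have h7 : 0 ≤ 2 * Real.pi * Φ * X := by positivity
  nlinarith

theorem bphase_adm67 (X : ℕ) (hX : 1 ≤ X) (hXN : X ≤ N) (r : ZMod N) (cc : ℕ → ℂ) (φ : ℕ → ℝ)
    (Φ : ℝ) (hΦ : 0 ≤ Φ) (hcc : ∀ j, ‖cc j‖ ≤ 1) (hφ : ∀ j, cc j ≠ 0 → |φ j| ≤ Φ) :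
    Adm (2 * Real.pi * Φ * X + 4) X (bphase X r cc φ) :=
  ⟨norm_bphase_le67 X r cc φ hcc, bphase_tv67 X hX hXN r cc φ Φ hΦ hcc hφ⟩

/-- conjugates of block phases are block phases -/
theorem bphase_conj67 (X : ℕ) (r : ZMod N) (cc : ℕ → ℂ) (φ : ℕ → ℝ) (x : ZMod N) :
    conj (bphase X r cc φ x) = bphase X r (fun j => conj (cc j)) (fun j => -φ j) x := by
  unfold bphase
  rw [map_mul, ← e_neg]
  congr 2
  ring

/-- translates of block phases are block phases -/
theorem bphase_shift67 (X : ℕ) (r : ZMod N) (cc : ℕ → ℂ) (φ : ℕ → ℝ) (x y : ZMod N) :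
    bphase X r cc φ (x + y) = bphase X (r - y) cc φ x := by
  unfold bphase
  have : x + y - r = x - (r - y) := by ring
  rw [this]

/-- splitting a block phase by the size of its frequencies -/
theorem bphase_split67 (X : ℕ) (r : ZMod N) (cc : ℕ → ℂ) (φ : ℕ → ℝ) (p : ℕ → Prop)
    [DecidablePred p] (x : ZMod N) :
    bphase X r cc φ x = bphase X r (fun j => if p j then cc j else 0) φ x +
      bphase X r (fun j => if p j then 0 else cc j) φ x := by
  unfold bphase
  by_cases h : p ((x - r).val / X) <;> simp [h]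

end BP

end

end Pool.Agent.Helper57.NX
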