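import Pool.Agent.Helper67.NX.BPhase
import Pool.Agent.Helper85.NX.Form

/-!
# Project NX: convolution operators and the `T T*` function of the top step
-/

set_option autoImplicit false

open Finset
open scoped BigOperators ComplexConjugate

namespace Pool.Agent.Helper57.NX

noncomputable section

section Conv
variable {N : ℕ} [NeZero N]

/-- `W` is a convolution operator of mass at most `M` -/
def Cv67 (M : ℝ) (W : (ZMod N → ℂ) → (ZMod N → ℂ)) : Prop :=
  ∃ κ : ZMod N → ℂ, ∑ y, ‖κ y‖ ≤ M ∧ ∀ f x, W f x = ∑ y, κ y * f (x + y)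

private lemma cv_avg {ι : Type} (s : Finset ι) (t : ι → ZMod N) :
    Cv67 1 (fun (f : ZMod N → ℂ) x => 𝔼 a ∈ s, f (x + t a)) := by
  classical
  refine ⟨fun y => 𝔼 a ∈ s, if t a = y then 1 else 0, ?_, fun f x => ?_⟩
  · have h1 : ∀ y : ZMod N, ‖𝔼 a ∈ s, (if t a = y then (1 : ℂ) else 0)‖ ≤
        𝔼 a ∈ s, (if t a = y then (1 : ℝ) else 0) := by
      intro y
      refine (norm_expect_le5 s _).trans (le_of_eq (expect_congr rfl fun a _ => ?_))
      split_ifs <;> simp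
    refine (sum_le_sum fun y _ => h1 y).trans ?_
    rw [← expect_sum_comm]
    refine expect_le_of5 _ _ zero_le_one fun a _ => ?_
    simp
  · rw [show ∑ y, (𝔼 a ∈ s, if t a = y then (1 : ℂ) else 0) * f (x + y) =
      ∑ y, 𝔼 a ∈ s, (if t a = y then (1 : ℂ) else 0) * f (x + y) from
      sum_congr rfl fun y _ => by rw [expect_mul]]
    rw [← expect_sum_comm]
    refine expect_congr rfl fun a _ => ?_
    simp

theorem cv_A67 (L : ℕ) : Cv67 1 (A (N := N) L) :=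
  cv_avg (range L) fun a => (a : ZMod N)

theorem cv_Ab67 (L : ℕ) : Cv67 1 (Ab (N := N) L) := by
  obtain ⟨κ, h1, h2⟩ := cv_avg (N := N) (range L) fun a => -(a : ZMod N)
  refine ⟨κ, h1, fun f x => ?_⟩
  rw [← h2 f x]
  unfold Ab
  simp only [sub_eq_add_neg]

theorem Cv67.comp {M M' : ℝ} {W W' : (ZMod N → ℂ) → (ZMod N → ℂ)} (h : Cv67 M W)
    (h' : Cv67 M' W') (hM' : 0 ≤ M') : Cv67 (M * M') (fun f => W (W' f)) := by
  obtain ⟨κ, h1, h2⟩ := h
  obtain ⟨κ', h1', h2'⟩ := h'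
  refine ⟨fun w => ∑ y, κ y * κ' (w - y), ?_, fun f x => ?_⟩
  · calc ∑ w, ‖∑ y, κ y * κ' (w - y)‖ ≤ ∑ w, ∑ y, ‖κ y‖ * ‖κ' (w - y)‖ :=
          sum_le_sum fun w _ => (norm_sum_le _ _).trans (le_of_eq (sum_congr rfl fun y _ =>
            norm_mul _ _))
      _ = ∑ y, ‖κ y‖ * ∑ w, ‖κ' w‖ := by
          rw [sum_comm]
          refine sum_congr rfl fun y _ => ?_
          rw [← mul_sum]
          congr 1
          exact Fintype.sum_equiv (Equiv.subRight y) _ _ fun w => rfl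
      _ = (∑ y, ‖κ y‖) * ∑ w, ‖κ' w‖ := by rw [sum_mul]
      _ ≤ M * M' := mul_le_mul h1 h1' (sum_nonneg fun _ _ => norm_nonneg _)
          ((sum_nonneg fun _ _ => norm_nonneg _).trans h1)
  · beta_reduce
    rw [h2]
    simp_rw [h2', sum_mul, mul_sum]
    rw [sum_comm (s := univ) (t := univ) (f := fun w y => κ y * κ' (w - y) * f (x + w))]
    refine sum_congr rfl fun y _ => ?_
    refine (Fintype.sum_equiv (Equiv.addLeft y) _ _ fun z => ?_)
    simp only [Equiv.coe_addLeft]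
    rw [show y + z - y = z by ring, ← mul_assoc, add_assoc]

theorem Cv67.sub {M M' : ℝ} {W W' : (ZMod N → ℂ) → (ZMod N → ℂ)} (h : Cv67 M W)
    (h' : Cv67 M' W') : Cv67 (M + M') (fun f x => W f x - W' f x) := by
  obtain ⟨κ, h1, h2⟩ := h
  obtain ⟨κ', h1', h2'⟩ := h'
  refine ⟨fun y => κ y - κ' y, ?_, fun f x => ?_⟩
  · calc ∑ y, ‖κ y - κ' y‖ ≤ ∑ y, (‖κ y‖ + ‖κ' y‖) := sum_le_sum fun y _ => norm_sub_le _ _
      _ ≤ M + M' := by rw [sum_add_distrib]; exact add_le_add h1 h1'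
  · beta_reduce
    rw [h2, h2', ← sum_sub_distrib]
    exact sum_congr rfl fun y _ => by ring

theorem Cv67.smul {M : ℝ} {W : (ZMod N → ℂ) → (ZMod N → ℂ)} (h : Cv67 M W) (z : ℂ) :
    Cv67 (‖z‖ * M) (fun f x => z * W f x) := by
  obtain ⟨κ, h1, h2⟩ := h
  refine ⟨fun y => z * κ y, ?_, fun f x => ?_⟩
  · simp_rw [norm_mul]
    rw [← mul_sum]
    exact mul_le_mul_of_nonneg_left h1 (norm_nonneg _)
  · beta_reduce
    rw [h2, mul_sum]
    exact sum_congr rfl fun y _ => by ring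

omit [NeZero N] in
private lemma A_conj (L : ℕ) (f : ZMod N → ℂ) (x : ZMod N) :
    A L (fun y => conj (f y)) x = conj (A L f x) := by
  unfold A
  rw [Finset.expect_eq_sum_div_card, Finset.expect_eq_sum_div_card, map_div₀, map_sum,
    Complex.conj_natCast]

omit [NeZero N] in
private lemma Ab_conj (L : ℕ) (f : ZMod N → ℂ) (x : ZMod N) :
    Ab L (fun y => conj (f y)) x = conj (Ab L f x) := by
  unfold Ab
  rw [Finset.expect_eq_sum_div_card, Finset.expect_eq_sum_div_card, map_div₀, map_sum,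
    Complex.conj_natCast]

omit [NeZero N] in
private lemma A_smul (L : ℕ) (z : ℂ) (f : ZMod N → ℂ) (x : ZMod N) :
    A L (fun y => z * f y) x = z * A L f x := by
  unfold A
  rw [mul_expect]

/-- Cauchy–Schwarz for averages -/
theorem sq_expect_le67 {ι : Type} [Fintype ι] [Nonempty ι] (f : ι → ℝ) :
    (𝔼 i, f i) ^ 2 ≤ 𝔼 i, f i ^ 2 := by
  rw [Finset.expect_eq_sum_div_card, Finset.expect_eq_sum_div_card, div_pow]
  have h1 := sq_sum_le_card_mul_sum_sq (s := (univ : Finset ι)) (f := f)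
  have hc : (0 : ℝ) < (#(univ : Finset ι) : ℝ) := by
    exact_mod_cast Finset.card_pos.2 univ_nonempty
  rw [div_le_div_iff₀ (by positivity) hc]
  nlinarith [h1]

/-- `T g = A_Y (g - A_{L'} g)` correlates with `F`; then there is `u` with the properties needed
in the top step -/
theorem core67 (g F : ZMod N → ℂ) (hg : ∀ x, ‖g x‖ ≤ 1) (hF : ∀ x, ‖F x‖ ≤ 1) (L' Y : ℕ)
    (hL' : 1 ≤ L') (hY : 1 ≤ Y) (η : ℝ) (hη : 0 ≤ η)
    (h : η ≤ ‖𝔼 x, A Y (fun y => g y - A L' g y) x * F x‖) :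
    ∃ u κ : ZMod N → ℂ, (∀ x, ‖u x‖ ≤ 1) ∧ TV 2 Y u ∧ ∑ y, ‖κ y‖ ≤ 1 ∧
      (∀ x, u x = ∑ y, κ y * conj (F (x + y))) ∧ η ^ 2 / 4 ≤ ‖𝔼 x, u x * F x‖ ∧
      ∀ L : ℕ, 1 ≤ L → ∀ x, ‖A L u x‖ ≤ L' / L := by
  classical
  set F1 : ZMod N → ℂ := Ab Y F with hF1
  set H : ZMod N → ℂ := fun x => F1 x - Ab L' F1 x with hH
  have hF1b : ∀ x, ‖F1 x‖ ≤ 1 := norm_Ab_le hF Y
  have hHb : ∀ x, ‖H x‖ ≤ 2 := fun x => by
    have h1 := norm_sub_le (F1 x) (Ab L' F1 x)
    have h2 := hF1b x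
    have h3 := norm_Ab_le hF1b L' x
    rw [hH]
    linarith
  -- adjointness of `g ↦ g - A g`
  have hadj : ∀ p q : ZMod N → ℂ, 𝔼 x, A Y (fun y => p y - A L' p y) x * q x =
      𝔼 x, p x * (Ab Y q x - Ab L' (Ab Y q) x) := by
    intro p q
    rw [adj_A]
    have h1 : ∀ x, (p x - A L' p x) * Ab Y q x = p x * Ab Y q x - A L' p x * Ab Y q x :=
      fun x => by ring
    have h2 : ∀ x, p x * (Ab Y q x - Ab L' (Ab Y q) x) =
      p x * Ab Y q x - p x * Ab L' (Ab Y q) x := fun x => by ring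
    simp_rw [h1, h2]
    rw [expect_sub_distrib, expect_sub_distrib, adj_A]
  -- the second moment of `H`
  have hE : η ^ 2 ≤ 𝔼 x, ‖H x‖ ^ 2 := by
    have h1 : η ≤ 𝔼 x, ‖H x‖ := by
      refine h.trans ?_
      rw [hadj g F]
      refine (norm_expect_le5 _ _).trans (expect_le_expect fun x _ => ?_)
      rw [norm_mul]
      calc ‖g x‖ * ‖Ab Y F x - Ab L' (Ab Y F) x‖ ≤ 1 * ‖H x‖ :=
            mul_le_mul_of_nonneg_right (hg x) (norm_nonneg _)
        _ = ‖H x‖ := one_mul _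
    have h2 : η ^ 2 ≤ (𝔼 x, ‖H x‖) ^ 2 := pow_le_pow_left₀ hη h1 2
    exact h2.trans (sq_expect_le67 _)
  -- `v = conj H / 2` is bounded by `1`
  set v : ZMod N → ℂ := fun x => (1 / 2 : ℂ) * conj (H x) with hv
  have hvb : ∀ x, ‖v x‖ ≤ 1 := fun x => by
    rw [hv]
    simp only [norm_mul, RCLike.norm_conj]
    have := hHb x
    have h2 : ‖(1 / 2 : ℂ)‖ = 1 / 2 := by norm_num
    rw [h2]
    linarith
  set w : ZMod N → ℂ := fun x => v x - A L' v x with hw
  have hwb : ∀ x, ‖w x‖ ≤ 2 := fun x => by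
    have h1 := norm_sub_le (v x) (A L' v x)
    have h2 := hvb x
    have h3 := norm_A_le hvb L' x
    rw [hw]
    linarith
  set u : ZMod N → ℂ := fun x => (1 / 2 : ℂ) * A Y w x with hu
  have hhalf : ‖(1 / 2 : ℂ)‖ = 1 / 2 := by norm_num
  obtain ⟨κ, hκ1, hκ2⟩ : Cv67 1 (fun (f : ZMod N → ℂ) x => (1 / 2 : ℂ) * A Y (fun y =>
      ((1 / 2 : ℂ) * (Ab Y f y - Ab L' (Ab Y f) y)) -
        A L' (fun z => (1 / 2 : ℂ) * (Ab Y f z - Ab L' (Ab Y f) z)) y) x) := by
    have c1 : Cv67 2 (fun (f : ZMod N → ℂ) x => Ab Y f x - Ab L' (Ab Y f) x) := by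
      have := (cv_Ab67 (N := N) Y).sub ((cv_Ab67 (N := N) L').comp (cv_Ab67 Y) zero_le_one)
      norm_num at this
      exact this
    have c2 : Cv67 1 (fun (f : ZMod N → ℂ) x => (1 / 2 : ℂ) * (Ab Y f x - Ab L' (Ab Y f) x)) := by
      have := c1.smul (1 / 2 : ℂ)
      rw [hhalf] at this
      norm_num at this ⊢
      exact this
    have c3 := c2.sub ((cv_A67 (N := N) L').comp c2 zero_le_one)
    have c4 := ((cv_A67 (N := N) Y).comp c3 (by norm_num)).smul (1 / 2 : ℂ)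
    rw [hhalf] at c4
    norm_num at c4 ⊢
    exact c4
  refine ⟨u, κ, fun x => ?_, ?_, hκ1, fun x => ?_, ?_, fun L hL x => ?_⟩
  · have h1 := norm_A_le_of5 (by norm_num : (0 : ℝ) ≤ 2) hwb Y x
    rw [hu]
    simp only [norm_mul, hhalf]
    linarith
  · have h1 := (tv_A hwb Y hY).smul (1 / 2 : ℂ)
    rw [hhalf] at h1
    norm_num at h1 ⊢
    rw [hu]
    norm_num
    exact h1
  · rw [← hκ2 (fun z => conj (F z)) x]
    rw [hu, hw, hv]
    have e1 : ∀ y, conj (H y) = Ab Y (fun z => conj (F z)) y -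
        Ab L' (Ab Y (fun z => conj (F z))) y := by
      intro y
      have e2 : (Ab Y (fun z => conj (F z))) = fun z => conj (F1 z) := by
        funext z
        rw [Ab_conj]
      rw [e2, Ab_conj, hH]
      simp only [map_sub]
    simp only [e1]
  · have e1 : 𝔼 x, u x * F x = (1 / 4 : ℂ) * ((𝔼 x, ‖H x‖ ^ 2 : ℝ) : ℂ) := by
      have e2 : ∀ x, u x * F x = (1 / 2 : ℂ) * (A Y w x * F x) := fun x => by rw [hu]; ring
      simp_rw [e2]
      rw [← mul_expect, hw, hadj v F]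
      have e3 : ∀ x, v x * (Ab Y F x - Ab L' (Ab Y F) x) =
          (1 / 2 : ℂ) * ((‖H x‖ ^ 2 : ℝ) : ℂ) := by
        intro x
        have e4 : v x * H x = (1 / 2 : ℂ) * (conj (H x) * H x) := by rw [hv]; ring
        rw [← Complex.normSq_eq_norm_sq, Complex.normSq_eq_conj_mul_self]
        exact e4
      simp_rw [e3]
      rw [← mul_expect]
      have e5 : (((𝔼 x, ‖H x‖ ^ 2 : ℝ)) : ℂ) = 𝔼 x, ((‖H x‖ ^ 2 : ℝ) : ℂ) := by
        rw [Finset.expect_eq_sum_div_card, Finset.expect_eq_sum_div_card]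
        push_cast
        rfl
      rw [e5, ← mul_assoc]
      norm_num
    rw [e1, norm_mul, Complex.norm_real, Real.norm_of_nonneg
      (expect_nonneg fun _ _ => by positivity)]
    have e6 : ‖(1 / 4 : ℂ)‖ = 1 / 4 := by norm_num
    rw [e6]
    linarith
  · have e1 : A L u x = (1 / 2 : ℂ) * A Y (A L w) x := by
      rw [hu, A_smul, A_comm]
    have e2 : ∀ y, ‖A L w y‖ ≤ 2 * L' / L := fun y => A_small hvb L L' hL hL' y
    have hnn : (0 : ℝ) ≤ 2 * L' / L := by positivity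
    have e3 := norm_A_le_of5 hnn e2 Y x
    rw [e1, norm_mul, hhalf]
    have e4 : (1 / 2 : ℝ) * (2 * L' / L) = L' / L := by ring
    linarith

end Conv

end

end Pool.Agent.Helper57.NX
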