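import Pool.Agent.Helper67.NX.FormCube

/-!
# Project NX: the top step (NX-17), with the statement of `dl_total` as a hypothesis
-/

set_option autoImplicit false

open Finset
open scoped BigOperators ComplexConjugate

namespace Pool.Agent.Helper57.NX

noncomputable section

/-- the statement of `dl_total` (NX-13) -/
def DLTotal67 : Prop := ∀ (r : ℕ) (Γ : ℕ → ℕ) (n : ℕ), ∃ n4 : ℕ,
    ∀ (N : ℕ) [NeZero N] (ι : Type) (Ω : Finset ι) (F : ι → ZMod N → ℂ) (κ u : ZMod N → ℂ)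
      (δ Y : ℝ) (X : ℕ), DLData Ω F κ u → 0 < δ → δ ≤ 1 / 2 → Adm (δ⁻¹ ^ n) Y u →
      1 ≤ Y → Y ≤ δ ^ n4 * X → (X : ℝ) ≤ δ ^ n4 * N → δ ^ n ≤ Box r X u →
      (∀ k ≤ r, ∀ n2 ≤ n4, ∀ X2 X' : ℕ, δ ^ n4 * X ≤ X2 → X2 ≤ X → 1 ≤ X' → X' ≤ X2 →
        LPh Ω F k X' X2 (δ⁻¹ ^ n2 / Y) (δ⁻¹ ^ (Γ n2) / X2) (δ ^ n2)) →
      ∃ X2 : ℕ, δ ^ n4 * X ≤ X2 ∧ X2 ≤ X ∧ ∃ (r' : ZMod N) (cc : ℕ → ℂ) (φ : ℕ → ℝ),
        (∀ j, ‖cc j‖ ≤ 1) ∧ (∀ j, |φ j| ≤ δ⁻¹ ^ n4 / Y) ∧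
        δ ^ n4 ≤ ‖𝔼 x, u x * bphase X2 r' cc φ x‖

private lemma floor_facts (x : ℝ) (hx : 1 ≤ x) :
    1 ≤ ⌊x⌋₊ ∧ (⌊x⌋₊ : ℝ) ≤ x ∧ x / 2 ≤ (⌊x⌋₊ : ℝ) := by
  have h1 : 1 ≤ ⌊x⌋₊ := Nat.le_floor (by simpa using hx)
  have h2 := Nat.lt_floor_add_one x
  have h3 : (1 : ℝ) ≤ (⌊x⌋₊ : ℝ) := by exact_mod_cast h1
  exact ⟨h1, Nat.floor_le (by linarith), by linarith⟩

private lemma inv_pow_mono {δ : ℝ} (h0 : 0 < δ) (h1 : δ ≤ 1) {a b : ℕ} (h : a ≤ b) :
    δ⁻¹ ^ a ≤ δ⁻¹ ^ b :=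
  pow_le_pow_right₀ ((one_le_inv₀ h0).2 h1) h

private lemma conj_expect67 {ι : Type} (s : Finset ι) (g : ι → ℂ) :
    conj (𝔼 i ∈ s, g i) = 𝔼 i ∈ s, conj (g i) := by
  rw [Finset.expect_eq_sum_div_card, Finset.expect_eq_sum_div_card, map_div₀, map_sum,
    Complex.conj_natCast]

/-- `u` does not correlate with block phases with a small form -/
theorem big67 {m N : ℕ} [NeZero N] (S : Sys (m + 1)) (c : Fin (m + 1) → ℝ) (f0 : ZMod N → ℂ)
    (f' : Fin m → ZMod N → ℂ) (ψ u : ZMod N → ℂ) (hψ1 : ∑ y, ‖ψ y‖ ≤ 1)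
    (hψ2 : ∀ x, u x = ∑ y, ψ y * conj (𝔼 k ∈ S.I, Fk67 S c f0 f' k (x + y))) (X2 : ℕ)
    (r' : ZMod N) (cc : ℕ → ℂ) (φ : ℕ → ℝ) (η : ℝ) (hη : 0 ≤ η)
    (h : ∀ r'' : ZMod N, ‖form S c 1 f0 (Fin.snoc (α := fun _ => ZMod N → ℂ) f'
      (bphase X2 r'' (fun j => conj (cc j)) (fun j => -φ j)))‖ ≤ η) :
    ‖𝔼 x, u x * bphase X2 r' cc φ x‖ ≤ η := by
  set F : ZMod N → ℂ := fun x => 𝔼 k ∈ S.I, Fk67 S c f0 f' k x with hF
  have e1 : ∀ y, ‖𝔼 x, conj (F (x + y)) * bphase X2 r' cc φ x‖ ≤ η := by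
    intro y
    have e2 : 𝔼 x, conj (F (x + y)) * bphase X2 r' cc φ x =
        conj (form S c 1 f0 (Fin.snoc (α := fun _ => ZMod N → ℂ) f'
          (bphase X2 (r' + y) (fun j => conj (cc j)) (fun j => -φ j)))) := by
      rw [← expect_dual67, conj_expect67,
        ← expect_shift (fun x => conj ((𝔼 k ∈ S.I, Fk67 S c f0 f' k x) *
          bphase X2 (r' + y) (fun j => conj (cc j)) (fun j => -φ j) x)) y]
      refine expect_congr rfl fun x _ => ?_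
      rw [map_mul, bphase_shift67, ← bphase_conj67, Complex.conj_conj, add_sub_cancel_right]
    rw [e2, RCLike.norm_conj]
    exact h _
  have e3 : 𝔼 x, u x * bphase X2 r' cc φ x =
      ∑ y, ψ y * 𝔼 x, conj (F (x + y)) * bphase X2 r' cc φ x := by
    simp_rw [hψ2, sum_mul, mul_expect]
    rw [expect_sum_comm]
    refine sum_congr rfl fun y _ => expect_congr rfl fun x _ => ?_
    ring
  rw [e3]
  calc _ ≤ ∑ y, ‖ψ y * 𝔼 x, conj (F (x + y)) * bphase X2 r' cc φ x‖ := norm_sum_le _ _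
    _ ≤ ∑ y, ‖ψ y‖ * η := sum_le_sum fun y _ => by
        rw [norm_mul]
        exact mul_le_mul_of_nonneg_left (e1 y) (norm_nonneg _)
    _ = (∑ y, ‖ψ y‖) * η := by rw [sum_mul]
    _ ≤ 1 * η := mul_le_mul_of_nonneg_right hψ1 hη
    _ = η := one_mul _

/-- correlation of a function with small averages with a function of bounded variation -/
theorem small67 {N : ℕ} [NeZero N] (u G : ZMod N → ℂ) (hu : ∀ x, ‖u x‖ ≤ 1) (B X : ℝ)
    (hX : 0 < X) (hG : Adm B X G) (L : ℕ) (hL : 1 ≤ L) (η : ℝ) (hη : 0 ≤ η)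
    (h : ∀ x, ‖A L u x‖ ≤ η) :
    ‖𝔼 x, u x * G x‖ ≤ L * B * (1 / X + 1 / N) + η := by
  have e1 : 𝔼 x, u x * G x = 𝔼 x, u x * (G x - Ab L G x) + 𝔼 x, A L u x * G x := by
    rw [adj_A, ← expect_add_distrib]
    exact expect_congr rfl fun x _ => by ring
  rw [e1]
  refine (norm_add_le _ _).trans (add_le_add ?_ ?_)
  · refine le_trans ?_ (hG.tv.l1_sub_Ab hX L hL)
    refine (norm_expect_le5 _ _).trans (expect_le_expect fun x _ => ?_)
    rw [norm_mul]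
    exact mul_le_of_le_one_left (norm_nonneg _) (hu x)
  · refine norm_expect_le_of5 _ _ hη fun x _ => ?_
    rw [norm_mul]
    exact (mul_le_of_le_one_right (norm_nonneg _) (hG.bdd x)).trans (h x)

private theorem smooth67 {N : ℕ} [NeZero N] (g : ZMod N → ℂ) (δ X' : ℝ) (hδp : 0 < δ)
    (hδ1 : δ ≤ 1 / 2) (hX'0 : 0 < X') (hX'N : X' ≤ N) (hgX' : Adm δ⁻¹ X' g) (Y : ℕ) (hY1 : 1 ≤ Y)
    (hY2 : (Y : ℝ) ≤ δ ^ 6 * X') (L' : ℕ) :
    nrm (fun x => (g x - A L' g x) - A Y (fun x => g x - A L' g x) x) ≤ δ / 4 := by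
  have e1 : (fun x => (g x - A L' g x) - A Y (fun x => g x - A L' g x) x) =
      fun x => (g x - A Y g x) + (-A L' (fun y => g y - A Y g y) x) := by
    funext x
    rw [A_sub, A_sub, A_comm Y L']
    ring
  rw [e1]
  have h3 := nrm_add_le (fun x => g x - A Y g x)
    (fun x => -A L' (fun y => g y - A Y g y) x)
  have h4 : nrm (fun x => -A L' (fun y => g y - A Y g y) x) ≤
      nrm (fun x => g x - A Y g x) := by
    have h5 : nrm (fun x => -A L' (fun y => g y - A Y g y) x) =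
        nrm (A L' (fun y => g y - A Y g y)) := by
      unfold nrm
      simp only [norm_neg]
    rw [h5]
    exact nrm_A_le _ _
  have h6 : nrm (fun x => g x - A Y g x) ≤ Y * δ⁻¹ * (1 / X' + 1 / N) :=
    hgX'.tv.l1_sub_A hX'0 Y hY1
  have h7 : (1 : ℝ) / X' + 1 / N ≤ 2 / X' := by
    have : (1 : ℝ) / N ≤ 1 / X' := one_div_le_one_div_of_le hX'0 hX'N
    have e2 : (2 : ℝ) / X' = 1 / X' + 1 / X' := by ring
    linarith
  have h8 : (Y : ℝ) * δ⁻¹ * (1 / X' + 1 / N) ≤ 2 * δ ^ 5 := by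
    calc (Y : ℝ) * δ⁻¹ * (1 / X' + 1 / N) ≤ (δ ^ 6 * X') * δ⁻¹ * (2 / X') := by gcongr
      _ = 2 * δ ^ 5 := by field_simp
  have h9 : 2 * (2 * δ ^ 5) ≤ δ / 4 := by
    have : δ ^ 5 = δ * δ ^ 4 := by ring
    have h10 : δ ^ 4 ≤ (1 / 2) ^ 4 := pow_le_pow_left₀ hδp.le hδ1 4
    nlinarith
  linarith

private theorem uadm67 {N : ℕ} [NeZero N] (u : ZMod N → ℂ) (δ X' : ℝ) (hδp : 0 < δ)
    (hδ1 : δ ≤ 1 / 2) (hu1 : ∀ x, ‖u x‖ ≤ 1) (Y : ℕ) (hY0 : (0 : ℝ) < Y) (hYX' : (Y : ℝ) ≤ X')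
    (hX'0 : 0 < X') (hY3 : δ ^ 6 * X' / 2 ≤ Y) (hutv : TV 2 Y u) : Adm (δ⁻¹ ^ 8) X' u := by
  refine ⟨hu1, ?_⟩
  have h1 := hutv.rescale hY0 hYX'
  refine h1.mono ?_ hX'0 le_rfl
  have h2 : X' / Y ≤ 2 * δ⁻¹ ^ 6 := by
    rw [div_le_iff₀ hY0]
    calc X' = 2 * δ⁻¹ ^ 6 * (δ ^ 6 * X' / 2) := by field_simp
      _ ≤ _ := mul_le_mul_of_nonneg_left hY3 (by positivity)
  have h3 : (4 : ℝ) ≤ δ⁻¹ ^ 2 := by
    have : (2 : ℝ) ≤ δ⁻¹ := by
      rw [le_inv_comm₀ (by norm_num) hδp]; linarith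
    nlinarith
  calc 2 * (X' / Y) ≤ 2 * (2 * δ⁻¹ ^ 6) := by linarith
    _ = 4 * δ⁻¹ ^ 6 := by ring
    _ ≤ δ⁻¹ ^ 2 * δ⁻¹ ^ 6 := mul_le_mul_of_nonneg_right h3 (by positivity)
    _ = δ⁻¹ ^ 8 := by rw [← pow_add]

private theorem endgame67 {N : ℕ} [NeZero N] (u : ZMod N → ℂ) (δ : ℝ) (hδp : 0 < δ)
    (hδ1 : δ ≤ 1 / 2) (hu1 : ∀ x, ‖u x‖ ≤ 1) (n4 r G n5 : ℕ) (hn5 : n5 = G + n4 + 7) (X2 : ℕ)
    (hX21' : 1 ≤ X2) (hX2N : X2 ≤ N) (r' : ZMod N) (cc : ℕ → ℂ) (φ : ℕ → ℝ)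
    (hcc : ∀ j, ‖cc j‖ ≤ 1) (p : ℕ → Prop) [DecidablePred p]
    (hp : p = fun j => δ⁻¹ ^ G / X2 ≤ |φ j|)
    (hbig : ‖𝔼 x, u x * bphase X2 r' (fun j => if p j then cc j else 0) φ x‖ ≤ δ ^ (n4 + r + 2))
    (hcor : δ ^ n4 ≤ ‖𝔼 x, u x * bphase X2 r' cc φ x‖) (L' : ℕ)
    (huA : ∀ L : ℕ, 1 ≤ L → ∀ x, ‖A L u x‖ ≤ L' / L) (hx4 : 1 ≤ δ ^ n5 * (X2 : ℝ)) :
    δ ^ (n4 + 2) * (δ ^ n5 * X2) ≤ L' := by
  have hδ1' : δ ≤ 1 := by linarith
  have h2inv : (2 : ℝ) ≤ δ⁻¹ := by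
    rw [le_inv_comm₀ (by norm_num) hδp]; linarith
  have hX20 : (0 : ℝ) < X2 := by exact_mod_cast hX21'
  have hX2N' : (X2 : ℝ) ≤ N := by exact_mod_cast hX2N
  -- the part with small frequencies
  have hinvG : (0 : ℝ) < δ⁻¹ ^ G := by positivity
  have hsmallAdm : Adm (δ⁻¹ ^ (G + 4)) X2
      (bphase X2 r' (fun j => if p j then 0 else cc j) φ) := by
    have hccs : ∀ j, ‖(if p j then (0 : ℂ) else cc j)‖ ≤ 1 := by
      intro j
      split_ifs
      · simp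
      · exact hcc j
    have h1 := bphase_adm67 X2 hX21' hX2N r' (fun j => if p j then 0 else cc j) φ
      (δ⁻¹ ^ G / X2) (by positivity) hccs
      (fun j hj => by
        by_contra h
        apply hj
        have h2 : p j := by
          rw [hp]
          exact (not_le.1 h).le
        simp only [h2, if_true])
    refine h1.mono ?_ hX20 le_rfl
    have h2 : 2 * Real.pi * (δ⁻¹ ^ G / X2) * X2 = 2 * Real.pi * δ⁻¹ ^ G := by
      field_simp
    rw [h2]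
    have h3 : Real.pi < 3.15 := Real.pi_lt_d2
    have h4 : (1 : ℝ) ≤ δ⁻¹ ^ G := one_le_pow₀ (by linarith)
    have h5 : (16 : ℝ) ≤ δ⁻¹ ^ 4 := by
      calc (16 : ℝ) = 2 ^ 4 := by norm_num
        _ ≤ δ⁻¹ ^ 4 := pow_le_pow_left₀ (by norm_num) h2inv 4
    have h6 : δ⁻¹ ^ (G + 4) = δ⁻¹ ^ 4 * δ⁻¹ ^ G := by rw [add_comm, pow_add]
    rw [h6]
    nlinarith
  obtain ⟨X3, hX3def⟩ : ∃ X3 : ℕ, X3 = ⌊δ ^ n5 * (X2 : ℝ)⌋₊ := ⟨_, rfl⟩
  have hX31 : 1 ≤ X3 := by rw [hX3def]; exact (floor_facts _ hx4).1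
  have hX32 : (X3 : ℝ) ≤ δ ^ n5 * X2 := by rw [hX3def]; exact (floor_facts _ hx4).2.1
  have hX33 : δ ^ n5 * X2 / 2 ≤ X3 := by rw [hX3def]; exact (floor_facts _ hx4).2.2
  have hX30 : (0 : ℝ) < X3 := by exact_mod_cast hX31
  have hsmall := small67 u _ hu1 _ X2 hX20 hsmallAdm X3 hX31 (L' / X3) (by positivity)
    (huA X3 hX31)
  have hs1 : (X3 : ℝ) * δ⁻¹ ^ (G + 4) * (1 / X2 + 1 / N) ≤ 2 * δ ^ (n4 + 3) := by
    have h7 : (1 : ℝ) / X2 + 1 / N ≤ 2 / X2 := by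
      have : (1 : ℝ) / N ≤ 1 / X2 := one_div_le_one_div_of_le hX20 hX2N'
      have e2 : (2 : ℝ) / X2 = 1 / X2 + 1 / X2 := by ring
      linarith
    have e3 : δ ^ n5 = δ ^ (n4 + 3) * δ ^ (G + 4) := by
      rw [← pow_add]
      congr 1
      omega
    calc (X3 : ℝ) * δ⁻¹ ^ (G + 4) * (1 / X2 + 1 / N) ≤
          (δ ^ n5 * X2) * δ⁻¹ ^ (G + 4) * (2 / X2) := by gcongr
      _ = 2 * δ ^ (n4 + 3) * (δ ^ (G + 4) * δ⁻¹ ^ (G + 4)) * (X2 / X2) := by
          rw [e3]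
          ring
      _ = 2 * δ ^ (n4 + 3) := by
          rw [← mul_pow, mul_inv_cancel₀ hδp.ne', one_pow, div_self hX20.ne', mul_one, mul_one]
  -- total
  have htot : δ ^ n4 ≤ δ ^ (n4 + r + 2) + (2 * δ ^ (n4 + 3) + L' / X3) := by
    refine hcor.trans ?_
    have e1 : 𝔼 x, u x * bphase X2 r' cc φ x =
        𝔼 x, u x * bphase X2 r' (fun j => if p j then cc j else 0) φ x +
        𝔼 x, u x * bphase X2 r' (fun j => if p j then 0 else cc j) φ x := by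
      rw [← expect_add_distrib]
      refine expect_congr rfl fun x _ => ?_
      rw [bphase_split67 X2 r' cc φ p x]
      ring
    rw [e1]
    refine (norm_add_le _ _).trans (add_le_add hbig (hsmall.trans ?_))
    linarith
  have hq1 : δ ^ (n4 + r + 2) ≤ δ ^ n4 / 4 := by
    have h1 : δ ^ (n4 + r + 2) ≤ δ ^ (n4 + 2) := pow_le_pow_of_le_one hδp.le hδ1' (by omega)
    have h2 : δ ^ (n4 + 2) = δ ^ n4 * δ ^ 2 := pow_add _ _ _
    have h3 : δ ^ 2 ≤ 1 / 4 := by nlinarith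
    have h4 : 0 < δ ^ n4 := by positivity
    nlinarith
  have hq2 : 2 * δ ^ (n4 + 3) ≤ δ ^ n4 / 4 := by
    have h2 : δ ^ (n4 + 3) = δ ^ n4 * δ ^ 3 := pow_add _ _ _
    have h3 : δ ^ 3 ≤ (1 / 2) ^ 3 := pow_le_pow_left₀ hδp.le hδ1 3
    have h4 : 0 < δ ^ n4 := by positivity
    nlinarith
  have hq3 : δ ^ n4 / 2 ≤ L' / X3 := by linarith
  rw [le_div_iff₀ hX30] at hq3
  have hq4 : δ ^ (n4 + 2) * (δ ^ n5 * X2) ≤ δ ^ n4 / 2 * X3 := by
    have h2 : δ ^ (n4 + 2) = δ ^ n4 * δ ^ 2 := pow_add _ _ _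
    have h3 : δ ^ 2 ≤ 1 / 4 := by nlinarith
    have h4 : 0 < δ ^ n4 := by positivity
    have h5 : 0 < δ ^ n5 * X2 := by positivity
    calc δ ^ (n4 + 2) * (δ ^ n5 * X2) = δ ^ n4 * (δ ^ 2 * (δ ^ n5 * X2)) := by rw [h2]; ring
      _ ≤ δ ^ n4 * (1 / 4 * (δ ^ n5 * X2)) := by gcongr
      _ = δ ^ n4 / 2 * (δ ^ n5 * X2 / 2) := by ring
      _ ≤ δ ^ n4 / 2 * X3 := by gcongr
  linarith

theorem top_step_of67 (hDL : DLTotal67) (m : ℕ) (c : Fin (m + 1) → ℝ)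
    (s s' ε : ℝ) (hs0 : 0 ≤ s) (hss : s < s') (hs' : s' < c (Fin.last m))
    (hG : GNCP m c s s') (hL : LPP m c s') (hT : TopP m c s' ε) : TopP m c s ε := by
  classical
  obtain ⟨xG, hxG, r, CG, σG, hσG, DG, hG⟩ := hG
  obtain ⟨xL, hxL, CL, σL, hσL, DL, hL⟩ := hL
  obtain ⟨xT, hxT, CT, σT, hσT, DT, hT⟩ := hT
  obtain ⟨n4, hn4⟩ := hDL r (fun n2 => CL * (n2 + r + 2)) (8 * CG + 8)
  obtain ⟨G, hGdef⟩ : ∃ G : ℕ, G = CL * (n4 + r + 2) := ⟨_, rfl⟩
  obtain ⟨n5, hn5⟩ : ∃ n5 : ℕ, n5 = G + n4 + 7 := ⟨_, rfl⟩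
  obtain ⟨M, hM⟩ : ∃ M : ℕ, M = 2 * n4 + n5 + r + 20 := ⟨_, rfl⟩
  obtain ⟨κ, hκdef⟩ : ∃ κ : ℝ, κ = min ((s' - s) / 8) (σT / 8) := ⟨_, rfl⟩
  have hκ0 : 0 < κ := by rw [hκdef]; exact lt_min (by linarith) (by linarith)
  have hκ1 : κ ≤ (s' - s) / 8 := by rw [hκdef]; exact min_le_left _ _
  have hκ2 : κ ≤ σT / 8 := by rw [hκdef]; exact min_le_right _ _
  obtain ⟨μ, hμdef⟩ : ∃ μ : ℝ, μ = min (min (min σT σG) (min σL (s' - s)))
      (min (min ((c (Fin.last m) - s') / 2) κ) 1) := ⟨_, rfl⟩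
  have hμ0 : 0 < μ := by
    rw [hμdef]
    refine lt_min (lt_min (lt_min hσT hσG) (lt_min hσL (by linarith)))
      (lt_min (lt_min (by linarith) hκ0) one_pos)
  have hμT : μ ≤ σT := by
    rw [hμdef]; exact (min_le_left _ _).trans ((min_le_left _ _).trans (min_le_left _ _))
  have hμG : μ ≤ σG := by
    rw [hμdef]; exact (min_le_left _ _).trans ((min_le_left _ _).trans (min_le_right _ _))
  have hμL : μ ≤ σL := by
    rw [hμdef]; exact (min_le_left _ _).trans ((min_le_right _ _).trans (min_le_left _ _))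
  have hμs : μ ≤ s' - s := by
    rw [hμdef]; exact (min_le_left _ _).trans ((min_le_right _ _).trans (min_le_right _ _))
  have hμc : μ ≤ (c (Fin.last m) - s') / 2 := by
    rw [hμdef]; exact (min_le_right _ _).trans ((min_le_left _ _).trans (min_le_left _ _))
  have hμκ : μ ≤ κ := by
    rw [hμdef]; exact (min_le_right _ _).trans ((min_le_left _ _).trans (min_le_right _ _))
  have hμ1 : μ ≤ 1 := by
    rw [hμdef]; exact (min_le_right _ _).trans (min_le_right _ _)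
  have hM0 : (0 : ℝ) < M := by
    have : 0 < M := by omega
    exact_mod_cast this
  obtain ⟨σ, hσdef⟩ : ∃ σ : ℝ, σ = μ / M := ⟨_, rfl⟩
  have hσ0 : 0 < σ := by rw [hσdef]; positivity
  have hMσ : (M : ℝ) * σ = μ := by rw [hσdef]; field_simp
  -- small multiples of `σ`
  have hKσ : ∀ K : ℕ, K ≤ M → (K : ℝ) * σ ≤ μ := fun K hK => by
    rw [← hMσ]
    exact mul_le_mul_of_nonneg_right (by exact_mod_cast hK) hσ0.le
  refine ⟨min (min xG xL) (min xT ((c (Fin.last m) - s') / 4)), ?_, 2 * CT, σ, hσ0,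
    max (max DG DL) (max DT 2), ?_⟩
  · exact lt_min (lt_min hxG hxL) (lt_min hxT (by linarith))
  intro S N _ hD hgood δ hδ0 hδ1 X hQX hX f0 f hf0 hf hfm hform L hL1 hL2
  have hDG : DG ≤ S.D := ((le_max_left _ _).trans (le_max_left _ _)).trans hD
  have hDL' : DL ≤ S.D := ((le_max_right _ _).trans (le_max_left _ _)).trans hD
  have hDT : DT ≤ S.D := ((le_max_left _ _).trans (le_max_right _ _)).trans hD
  have hD2 : 2 ≤ S.D := ((le_max_right _ _).trans (le_max_right _ _)).trans hD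
  have hD1 : 1 ≤ S.D := by linarith
  have hDp : 0 < S.D := by linarith
  have hgG : Good S c N xG := hgood.mono67 hD1 ((min_le_left _ _).trans (min_le_left _ _))
  have hgL : Good S c N xL := hgood.mono67 hD1 ((min_le_left _ _).trans (min_le_right _ _))
  have hgT : Good S c N xT := hgood.mono67 hD1 ((min_le_right _ _).trans (min_le_left _ _))
  have hgc : Good S c N ((c (Fin.last m) - s') / 4) :=
    hgood.mono67 hD1 ((min_le_right _ _).trans (min_le_right _ _))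
  clear hgood
  have hδp : 0 < δ := (Real.rpow_pos_of_pos hDp _).trans_le hδ0
  have hδ1' : δ ≤ 1 := by linarith
  have hhalf : S.D ^ (-σ) ≤ 1 / 2 := hδ0.trans hδ1
  -- powers
  have hpow : ∀ (K : ℕ) (y : ℝ), y ≤ -((K : ℝ) * σ) → S.D ^ y ≤ δ ^ K := by
    intro K y hy
    calc S.D ^ y ≤ S.D ^ (-σ * (K : ℝ)) :=
          Real.rpow_le_rpow_of_exponent_le hD1 (by linarith)
      _ = (S.D ^ (-σ)) ^ K := by rw [Real.rpow_mul hDp.le, Real.rpow_natCast]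
      _ ≤ δ ^ K := pow_le_pow_left₀ (Real.rpow_pos_of_pos hDp _).le hδ0 K
  have hQ1 : (1 : ℝ) ≤ S.Q := by
    refine le_trans ?_ hgG.Q1
    exact Real.one_le_rpow hD1 (by norm_num)
  have hQ0 : (0 : ℝ) < S.Q := by linarith
  have hmonoD : ∀ y z : ℝ, y ≤ z → (S.Q : ℝ) * S.D ^ y ≤ S.Q * S.D ^ z := fun y z h =>
    mul_le_mul_of_nonneg_left (Real.rpow_le_rpow_of_exponent_le hD1 h) hQ0.le
  have hQle : ∀ y : ℝ, 0 ≤ y → (S.Q : ℝ) ≤ S.Q * S.D ^ y := fun y h =>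
    le_mul_of_one_le_right hQ0.le (Real.one_le_rpow hD1 h)
  -- halving costs `σ`
  have hhalfQ : ∀ y : ℝ, (S.Q : ℝ) * S.D ^ (y - σ) ≤ S.Q * S.D ^ y / 2 := by
    intro y
    rw [show y - σ = y + -σ by ring, Real.rpow_add hDp]
    have h1 : 0 ≤ (S.Q : ℝ) * S.D ^ y := by positivity
    nlinarith
  have hδQ : ∀ (K : ℕ) (y : ℝ), (S.Q : ℝ) * S.D ^ (y - K * σ) ≤ δ ^ K * (S.Q * S.D ^ y) := by
    intro K y
    rw [show y - K * σ = y + -((K : ℝ) * σ) by ring, Real.rpow_add hDp]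
    have h1 : 0 ≤ (S.Q : ℝ) * S.D ^ y := by positivity
    have h2 := hpow K _ le_rfl
    nlinarith
  set g : ZMod N → ℂ := f (Fin.last m) with hg
  have hgb : ∀ x, ‖g x‖ ≤ 1 := hfm.bdd
  -- the scale `L'`
  have hy1 : 0 ≤ s' - 2 * κ := by linarith
  obtain ⟨L', hL'def⟩ : ∃ L' : ℕ, L' = ⌊(S.Q : ℝ) * S.D ^ (s' - 2 * κ)⌋₊ := ⟨_, rfl⟩
  have hx1 : (1 : ℝ) ≤ (S.Q : ℝ) * S.D ^ (s' - 2 * κ) := hQ1.trans (hQle _ hy1)
  have hL'1 : 1 ≤ L' := by rw [hL'def]; exact (floor_facts _ hx1).1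
  have hL'2 : (L' : ℝ) ≤ (S.Q : ℝ) * S.D ^ (s' - 2 * κ) := by
    rw [hL'def]; exact (floor_facts _ hx1).2.1
  have hL'3 : (S.Q : ℝ) * S.D ^ (s' - 2 * κ) / 2 ≤ L' := by
    rw [hL'def]; exact (floor_facts _ hx1).2.2
  have hL'Q : (S.Q : ℝ) ≤ L' := by
    have : S.Q ≤ L' := by rw [hL'def]; exact Nat.le_floor (hQle _ hy1)
    exact_mod_cast this
  have hL'0 : (0 : ℝ) < L' := by exact_mod_cast hL'1
  have e_f : Function.update f (Fin.last m) g = f := Function.update_eq_self _ _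
  by_cases hcase : δ ^ 2 ≤ ‖form S c 1 f0 (Function.update f (Fin.last m) (A L' g))‖
  · -- case (i)
    have hB2 : (2 : ℝ) ≤ (δ ^ 2)⁻¹ := by
      rw [le_inv_comm₀ (by norm_num) (by positivity)]
      nlinarith
    have hBB : δ⁻¹ ≤ (δ ^ 2)⁻¹ := by
      rw [inv_le_inv₀ hδp (by positivity)]
      nlinarith
    have hAd : Adm (δ ^ 2)⁻¹ L' (A L' g) :=
      ⟨norm_A_le hgb L', (by simpa using tv_A hgb L' hL'1 : TV 2 L' (A L' g)).mono hB2 hL'0 le_rfl⟩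
    have h2σ := hKσ 2 (by omega)
    have h3σ := hKσ 3 (by omega)
    push_cast at h2σ h3σ
    have key := hT S N hDT hgT (δ ^ 2) (hpow 2 (-σT) (by push_cast; linarith)) (by nlinarith)
      L' hL'Q (by
        have h1 := hhalfQ (s' - 2 * κ)
        have h2 := hmonoD (s' - σT) (s' - 2 * κ - σ) (by linarith)
        linarith)
      f0 (Function.update f (Fin.last m) (A L' g)) (hf0.mono hBB hQ0 le_rfl)
      (by
        intro i
        by_cases hi : i = Fin.last m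
        · subst hi
          rw [Function.update_self]
          exact hAd.mono le_rfl hQ0 hL'Q
        · rw [Function.update_of_ne hi]
          exact (hf i).mono hBB hQ0 le_rfl)
      (by rw [Function.update_self]; exact hAd) hcase L hL1 hL2
    rw [Function.update_self, A_comm] at key
    rw [pow_mul]
    exact key.trans (nrm_A_le L' (A L g))
  · exfalso
    push Not at hcase
    -- the scale `X'`
    obtain ⟨X', hX'def⟩ : ∃ X' : ℝ, X' = min X (S.Q * S.D ^ s) := ⟨_, rfl⟩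
    have hX'X : X' ≤ X := by rw [hX'def]; exact min_le_left _ _
    have hX's : X' ≤ S.Q * S.D ^ s := by rw [hX'def]; exact min_le_right _ _
    have hQX' : (S.Q : ℝ) ≤ X' := by rw [hX'def]; exact le_min hQX (hQle _ hs0)
    have hX'σ : S.Q * S.D ^ (s - σ) ≤ X' := by
      rw [hX'def]; exact le_min hX (hmonoD _ _ (by linarith))
    have hX'1 : 1 ≤ X' := hQ1.trans hQX'
    have hX'0 : 0 < X' := by linarith
    have hgX' : Adm δ⁻¹ X' g := hfm.mono le_rfl hX'0 hX'X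
    -- size of `N`
    have hNbig : (S.Q : ℝ) * S.D ^ (c (Fin.last m) - 2 * ((c (Fin.last m) - s') / 4)) ≤ N := by
      have h1 := hgc.N1 (Fin.last m)
      have h2 := hgc.P1 (Fin.last m)
      have h3 := h2.trans h1
      have hp : 0 < S.D ^ ((c (Fin.last m) - s') / 4) := Real.rpow_pos_of_pos hDp _
      have h4 : (S.Q : ℝ) * S.D ^ (c (Fin.last m) - 2 * ((c (Fin.last m) - s') / 4)) *
          S.D ^ ((c (Fin.last m) - s') / 4) =
          S.Q * S.D ^ (c (Fin.last m) - (c (Fin.last m) - s') / 4) := by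
        rw [mul_assoc, ← Real.rpow_add hDp]
        congr 2
        ring
      rw [← h4] at h3
      exact le_of_mul_le_mul_right h3 hp
    have hNK : ∀ K : ℕ, K ≤ M → (S.Q : ℝ) * S.D ^ s' ≤ δ ^ K * N := by
      intro K hK
      have h1 := hδQ K (c (Fin.last m) - 2 * ((c (Fin.last m) - s') / 4))
      have h2 := hmonoD s' (c (Fin.last m) - 2 * ((c (Fin.last m) - s') / 4) - K * σ)
        (by have := hKσ K hK; linarith)
      exact h2.trans (h1.trans (mul_le_mul_of_nonneg_left hNbig (by positivity)))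
    have hQs'N : (S.Q : ℝ) * S.D ^ s' ≤ N := by
      have := hNK 0 (by omega)
      simpa using this
    have hX'N : X' ≤ N := hX's.trans ((hmonoD s s' hss.le).trans hQs'N)
    have hN0 : (0 : ℝ) < N := by linarith
    -- the scale `Y`
    obtain ⟨Y, hYdef⟩ : ∃ Y : ℕ, Y = ⌊δ ^ 6 * X'⌋₊ := ⟨_, rfl⟩
    have hx2 : (1 : ℝ) ≤ δ ^ 6 * X' := by
      have h1 := hδQ 6 0
      have h2 := hKσ 6 (by omega)
      push_cast at h1 h2
      rw [Real.rpow_zero, mul_one] at h1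
      have h3 : (1 : ℝ) ≤ S.Q * S.D ^ (0 - 6 * σ) := by
        calc (1 : ℝ) ≤ S.D ^ (2 : ℝ) * S.D ^ (0 - 6 * σ) := by
              rw [← Real.rpow_add hDp]
              exact Real.one_le_rpow hD1 (by linarith)
          _ ≤ _ := mul_le_mul_of_nonneg_right hgG.Q1 (Real.rpow_pos_of_pos hDp _).le
      exact h3.trans (h1.trans (mul_le_mul_of_nonneg_left hQX' (by positivity)))
    have hY1 : 1 ≤ Y := by rw [hYdef]; exact (floor_facts _ hx2).1
    have hY2 : (Y : ℝ) ≤ δ ^ 6 * X' := by rw [hYdef]; exact (floor_facts _ hx2).2.1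
    have hY3 : δ ^ 6 * X' / 2 ≤ Y := by rw [hYdef]; exact (floor_facts _ hx2).2.2
    have hY0 : (0 : ℝ) < Y := by exact_mod_cast hY1
    -- the high part is large
    have hhigh : δ / 2 ≤ ‖form S c 1 f0 (Function.update f (Fin.last m)
        (fun x => g x - A L' g x))‖ := by
      rw [form_update_sub, e_f]
      have h1 := norm_sub_norm_le (form S c 1 f0 f)
        (form S c 1 f0 (Function.update f (Fin.last m) (A L' g)))
      nlinarith
    have hone : ∀ k, ‖(1 : ℕ → ℂ) k‖ ≤ 1 := fun k => by simp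
    -- smoothing at scale `Y`
    have hsm : δ / 4 ≤ ‖form S c 1 f0 (Function.update f (Fin.last m)
        (A Y (fun x => g x - A L' g x)))‖ := by
      have h1 := norm_form_update_le S c 1 hone f0 hf0.bdd f (Fin.last m)
        (fun j _ => (hf j).bdd) (fun x => (g x - A L' g x) - A Y (fun x => g x - A L' g x) x)
      rw [form_update_sub] at h1
      have h2 := smooth67 g δ X' hδp hδ1 hX'0 hX'N hgX' Y hY1 hY2 L'
      have h3 := norm_sub_norm_le (form S c 1 f0 (Function.update f (Fin.last m)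
        (fun x => g x - A L' g x))) (form S c 1 f0 (Function.update f (Fin.last m)
        (A Y (fun x => g x - A L' g x))))
      linarith
    -- the dual function
    set f' : Fin m → ZMod N → ℂ := fun i => f i.castSucc with hf'
    set F : ZMod N → ℂ := fun x => 𝔼 k ∈ S.I, Fk67 S c f0 f' k x with hF
    have hdual : dual S c 1 f0 f (Fin.last m) = F := by
      funext x
      rw [dual_last67]
    have hFb : ∀ x, ‖F x‖ ≤ 1 := fun x => by
      rw [← hdual]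
      exact norm_dual_le S c 1 hone f0 hf0.bdd f (Fin.last m) (fun j _ => (hf j).bdd) x
    rw [form_dual, hdual] at hsm
    obtain ⟨u, ψ, hu1, hutv, hψ1, hψ2, huF, huA⟩ :=
      core67 g F hgb hFb L' Y hL'1 hY1 (δ / 4) (by positivity) hsm
    -- `u` is admissible at scale `X'`
    have hYX' : (Y : ℝ) ≤ X' := hY2.trans (mul_le_of_le_one_left hX'0.le
      (pow_le_one₀ hδp.le hδ1'))
    have huX' : Adm (δ⁻¹ ^ 8) X' u := uadm67 u δ X' hδp hδ1 hu1 Y hY0 hYX' hX'0 hY3 hutv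
    have huform : δ ^ 8 ≤ ‖form S c 1 f0 (Function.update f (Fin.last m) u)‖ := by
      rw [form_dual, hdual]
      refine le_trans ?_ huF
      have h1 : δ ^ 6 ≤ (1 / 2) ^ 6 := pow_le_pow_left₀ hδp.le hδ1 6
      have h2 : δ ^ 8 = δ ^ 2 * δ ^ 6 := by ring
      have h3 : 0 ≤ δ ^ 2 := by positivity
      nlinarith
    -- the box norm of `u`
    obtain ⟨X1, hX1def⟩ : ∃ X1 : ℕ, X1 = ⌊(S.Q : ℝ) * S.D ^ s'⌋₊ := ⟨_, rfl⟩
    have hs'0 : 0 ≤ s' := by linarith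
    have hx3 : (1 : ℝ) ≤ (S.Q : ℝ) * S.D ^ s' := hQ1.trans (hQle _ hs'0)
    have hX11 : 1 ≤ X1 := by rw [hX1def]; exact (floor_facts _ hx3).1
    have hX12 : (X1 : ℝ) ≤ (S.Q : ℝ) * S.D ^ s' := by
      rw [hX1def]; exact (floor_facts _ hx3).2.1
    have hX13 : (S.Q : ℝ) * S.D ^ s' / 2 ≤ X1 := by rw [hX1def]; exact (floor_facts _ hx3).2.2
    have hX14 : (S.Q : ℝ) * S.D ^ (s' - σ) ≤ X1 := (hhalfQ s').trans hX13
    have hinv8 : δ⁻¹ ≤ (δ ^ 8)⁻¹ := by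
      rw [← inv_pow]
      have := inv_pow_mono hδp hδ1' (show 1 ≤ 8 by norm_num)
      simpa using this
    have h8σ := hKσ 8 (by omega)
    have hbox : (δ ^ 8) ^ CG ≤ Box r X1 u := by
      have key := hG S N hDG hgG (δ ^ 8) (hpow 8 (-σG) (by push_cast at h8σ ⊢; linarith))
        (by
          have h1 : δ ^ 8 ≤ δ ^ 1 := pow_le_pow_of_le_one hδp.le hδ1' (by norm_num)
          rw [pow_one] at h1
          linarith) X' hQX' ((hmonoD _ _ (by have := hKσ 1 (by omega); push_cast at this; linarith)).trans hX'σ)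
        f0 (Function.update f (Fin.last m) u) (hf0.mono hinv8 hQ0 le_rfl)
        (by
          intro i
          by_cases hi : i = Fin.last m
          · subst hi
            rw [Function.update_self, ← inv_pow]
            exact huX'.mono le_rfl hQ0 hQX'
          · rw [Function.update_of_ne hi]
            exact (hf i).mono hinv8 hQ0 le_rfl)
        (by rw [Function.update_self, ← inv_pow]; exact huX') huform X1 hX11 hX12
      rw [Function.update_self] at key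
      exact key
    -- the scales `X2`
    have hX2low : ∀ X2 : ℕ, δ ^ n4 * X1 ≤ X2 →
        (S.Q : ℝ) * S.D ^ (s' - σ - n4 * σ) ≤ X2 := by
      intro X2 h
      exact ((hδQ n4 (s' - σ)).trans (mul_le_mul_of_nonneg_left hX14 (by positivity))).trans h
    have hn4σ := hKσ (n4 + 1) (by omega)
    push_cast at hn4σ
    -- large frequencies
    have hLPall : ∀ n2 ≤ n4, ∀ X2 : ℕ, δ ^ n4 * X1 ≤ X2 → X2 ≤ X1 →
        ∀ (g0 : ZMod N → ℂ) (g' : Fin m → ZMod N → ℂ), Adm (δ⁻¹ ^ (n2 + r + 2)) S.Q g0 →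
        (∀ i, Adm (δ⁻¹ ^ (n2 + r + 2)) S.Q (g' i)) →
        ∀ (r' : ZMod N) (cc : ℕ → ℂ) (φ : ℕ → ℝ), (∀ j, ‖cc j‖ ≤ 1) →
        (∀ j, |φ j| ≤ δ⁻¹ ^ n2 / X') →
        (∀ j, cc j ≠ 0 → δ⁻¹ ^ (CL * (n2 + r + 2)) / X2 ≤ |φ j|) →
        ‖form S c 1 g0 (Fin.snoc (α := fun _ => ZMod N → ℂ) g' (bphase X2 r' cc φ))‖ <
          δ ^ (n2 + r + 2) := by
      intro n2 hn2 X2 h1 h2 g0 g' hg0 hg' r' cc φ hcc hφ1 hφ2
      have hKL := hKσ (n2 + r + 2) (by omega)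
      have hlow := hX2low X2 h1
      refine hL S N hDL' hgL (δ ^ (n2 + r + 2)) (hpow _ _ (by linarith)) ?_ X2 ?_ ?_ ?_ g0 g' ?_ ?_
        r' cc φ hcc ?_ ?_
      · have h3 : δ ^ (n2 + r + 2) ≤ δ ^ 1 := pow_le_pow_of_le_one hδp.le hδ1' (by omega)
        rw [pow_one] at h3
        linarith
      · have h3 : (S.Q : ℝ) ≤ X2 := (hQle _ (by linarith)).trans hlow
        exact_mod_cast h3
      · exact (hmonoD _ _ (by linarith)).trans hlow
      · have h3 : (X2 : ℝ) ≤ X1 := by exact_mod_cast h2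
        exact h3.trans hX12
      · rw [← inv_pow]; exact hg0
      · intro i; rw [← inv_pow]; exact hg' i
      · intro j
        rw [← inv_pow]
        refine (hφ1 j).trans ?_
        exact div_le_div₀ (by positivity) (inv_pow_mono hδp hδ1' (by omega)) hQ0 hQX'
      · intro j hj
        rw [← inv_pow, ← pow_mul, mul_comm (n2 + r + 2) CL]
        exact hφ2 j hj
    have h2inv : (2 : ℝ) ≤ δ⁻¹ := by
      rw [le_inv_comm₀ (by norm_num) hδp]; linarith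
    have hLPh : ∀ k ≤ r, ∀ n2 ≤ n4, ∀ X2 X'' : ℕ, δ ^ n4 * X1 ≤ X2 → X2 ≤ X1 → 1 ≤ X'' →
        X'' ≤ X2 → LPh S.I (Fk67 S c f0 f') k X'' X2 (δ⁻¹ ^ n2 / X')
          (δ⁻¹ ^ (CL * (n2 + r + 2)) / X2) (δ ^ n2) := by
      intro k hk n2 hn2 X2 X'' h1 h2 _ _ a _ b _ r' cc φ hcc hφ1 hφ2
      rw [form_cube67]
      have hB : (2 : ℝ) ^ k * δ⁻¹ ≤ δ⁻¹ ^ (n2 + r + 2) := by
        calc (2 : ℝ) ^ k * δ⁻¹ ≤ δ⁻¹ ^ k * δ⁻¹ :=
              mul_le_mul_of_nonneg_right (pow_le_pow_left₀ (by norm_num) h2inv k) (by positivity)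
          _ = δ⁻¹ ^ (k + 1) := by rw [pow_succ]
          _ ≤ _ := inv_pow_mono hδp hδ1' (by omega)
      refine lt_of_lt_of_le (hLPall n2 hn2 X2 h1 h2 _ _ ?_ ?_ r' cc φ hcc hφ1 hφ2)
        (pow_le_pow_of_le_one hδp.le hδ1' (by omega))
      · exact (Adm.cub hQ0 hf0 k a b).mono hB hQ0 le_rfl
      · intro i
        exact (Adm.cub hQ0 (hf i.castSucc) k a b).mono hB hQ0 le_rfl
    -- apply `dl_total`
    have hSI : S.I.Nonempty := by
      have h1 : (0 : ℝ) < S.T := (Real.rpow_pos_of_pos hDp _).trans_le hgG.T1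
      have h2 : 0 < S.T := by exact_mod_cast h1
      exact nonempty_Ico.2 (by omega)
    have hdata : DLData S.I (Fk67 S c f0 f') ψ u :=
      ⟨hSI, norm_Fk_le67 S c f0 f' hf0.bdd (fun i => (hf i.castSucc).bdd), hψ1, hψ2⟩
    obtain ⟨X2, hX21, hX22, r', cc, φ, hcc, hφ, hcor⟩ := hn4 N ℕ S.I (Fk67 S c f0 f') ψ u δ X' X1
      hdata hδp hδ1 (huX'.mono (inv_pow_mono hδp hδ1' (by omega)) hX'0 le_rfl) hX'1
      (by
        have h1 := (hδQ n4 (s' - σ)).trans (mul_le_mul_of_nonneg_left hX14 (by positivity))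
        have h2 := hmonoD s (s' - σ - n4 * σ) (by linarith)
        exact hX's.trans (h2.trans h1))
      (hX12.trans (hNK n4 (by omega)))
      (by
        rw [← pow_mul] at hbox
        exact (pow_le_pow_of_le_one hδp.le hδ1' (by omega)).trans hbox)
      hLPh
    have hX2l := hX2low X2 hX21
    have hX2Q : (S.Q : ℝ) ≤ X2 := (hQle _ (by linarith)).trans hX2l
    have hX20 : (0 : ℝ) < X2 := by linarith
    have hX21' : 1 ≤ X2 := by exact_mod_cast hX20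
    have hX2N' : (X2 : ℝ) ≤ N := by
      have h1 : (X2 : ℝ) ≤ X1 := by exact_mod_cast hX22
      exact h1.trans (hX12.trans hQs'N)
    have hX2N : X2 ≤ N := by exact_mod_cast hX2N'
    set p : ℕ → Prop := fun j => δ⁻¹ ^ G / X2 ≤ |φ j| with hp
    -- the part with large frequencies
    have hbig : ‖𝔼 x, u x * bphase X2 r' (fun j => if p j then cc j else 0) φ x‖ ≤
        δ ^ (n4 + r + 2) := by
      refine big67 S c f0 f' ψ u hψ1 hψ2 X2 r' _ φ _ (by positivity) fun r'' => ?_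
      refine (hLPall n4 le_rfl X2 hX21 hX22 f0 f' ?_ ?_ r'' _ _ ?_ ?_ ?_).le
      · have := inv_pow_mono hδp hδ1' (show 1 ≤ n4 + r + 2 by omega)
        rw [pow_one] at this
        exact hf0.mono this hQ0 le_rfl
      · intro i
        have := inv_pow_mono hδp hδ1' (show 1 ≤ n4 + r + 2 by omega)
        rw [pow_one] at this
        exact (hf i.castSucc).mono this hQ0 le_rfl
      · intro j
        simp only [RCLike.norm_conj]
        split_ifs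
        · exact hcc j
        · simp
      · intro j
        rw [abs_neg]
        exact hφ j
      · intro j hj
        rw [abs_neg, ← hGdef]
        by_contra h
        apply hj
        simp only [hp, if_neg h, map_zero]
    have h5low : (S.Q : ℝ) * S.D ^ (s' - κ) ≤ δ ^ (n4 + 2) * (δ ^ n5 * X2) := by
      have h1 := hδQ (n4 + 2 + n5) (s' - σ - n4 * σ)
      have h2 := hKσ (2 * n4 + n5 + 3) (by omega)
      push_cast at h1 h2
      have h3 := hmonoD (s' - κ) (s' - σ - n4 * σ - ((n4 : ℝ) + 2 + n5) * σ) (by linarith)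
      calc _ ≤ _ := h3
        _ ≤ _ := h1
        _ ≤ δ ^ (n4 + 2 + n5) * X2 := mul_le_mul_of_nonneg_left hX2l (by positivity)
        _ = _ := by rw [pow_add, mul_assoc]
    have hx4 : (1 : ℝ) ≤ δ ^ n5 * (X2 : ℝ) := by
      have h1 : δ ^ (n4 + 2) ≤ 1 := pow_le_one₀ hδp.le hδ1'
      have h2 : (0 : ℝ) ≤ δ ^ n5 * X2 := by positivity
      have h3 : (1 : ℝ) ≤ S.Q * S.D ^ (s' - κ) := hQ1.trans (hQle _ (by linarith))
      nlinarith
    have hend := endgame67 u δ hδp hδ1 hu1 n4 r G n5 hn5 X2 hX21' hX2N r' cc φ hcc p hp hbig hcor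
      L' huA hx4
    have hq5 : (S.Q : ℝ) * S.D ^ (s' - 2 * κ) < S.Q * S.D ^ (s' - κ) :=
      mul_lt_mul_of_pos_left (Real.rpow_lt_rpow_of_exponent_lt (by linarith) (by linarith)) hQ0
    linarith

end

end Pool.Agent.Helper57.NX
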